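import Pool.Agent.Y118.HV.Fin
import Pool.Agent.Y118.HV.Cnt
import Pool.Agent.Y118.HX.Fq

/-!
# The Hodge locus of variations of Calabi–Yau type at the points `1 / t`

Let `𝒱` be a polarised variation of Hodge structure of rank `2m ≥ 4` and weight `2m - 1` with all Hodge numbers
`h^{p,q} = 1` over an open part of the projective line, which comes from a family of varieties over `ℚ(x)`, such that
`x = 0` is a point with maximally unipotent monodromy and such that the monodromy group (equivalently, the differential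
Galois group) is Zariski dense in `Sp(2m)`. For `m = 2` these are the families of Calabi–Yau threefolds with `h^{2,1} = 1`
(or motives with these Hodge numbers) with a large complex structure limit and Zariski dense monodromy. All special points
of these variations are atypical. A point is in the Hodge locus if and only if there are Hodge tensors which are not
combinations of products of the polarisation.

With respect to a basis of sections over `ℚ(x)` adapted to the Hodge filtration and to the basis of flat sections for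
which the local monodromy is `exp (2 π i N)`, `N` the standard nilpotent matrix, the period matrix is `H(x) x^N` with a
matrix `H` of G-functions with rational coefficients; the flat polarisation is given by a rational matrix `S` and its
matrix with respect to the algebraic basis is `H S Hᵀ = B / p` with polynomials `B`, `p`. The rational structure is given by
an invertible matrix `C` (with `ζ(3) / (2 π i)^3` and similar periods as entries).

We prove: there are `G` and `E` such that at most one of two points `1 / t₁`, `1 / t₂` with `t₂ ≡ t₁` modulo `G` and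
`0 < (t₂ - t₁)^E ≤ t₁` is in the Hodge locus. The number of `t ≤ N` such that `1 / t` is in the Hodge locus is at most
`K N^(1-δ)`, `δ > 0`. If the rank is at least eight (`m ≥ 4`) then `1 / t` is not in the Hodge locus for `t ≥ t₀`. The
constants `G`, `E`, `K`, `δ`, `t₀` do not depend on the rational structure.
-/

set_option autoImplicit false

open PowerSeries

namespace Pool.Agent.Results.MP_eeb1a4_ag.CalabiYauHodgeLocus

/-- an integer polynomial as a power series with rational coefficients -/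
noncomputable def toQ (P : Polynomial ℤ) : PowerSeries ℚ := ((P.map (Int.castRingHom ℚ) : Polynomial ℚ) : PowerSeries ℚ)

/-- the power series `P(u^e)` -/
noncomputable def atPow (e : ℕ) (P : Polynomial ℤ) : PowerSeries ℂ :=
  ((Polynomial.expand ℂ e (P.map (Int.castRingHom ℂ)) : Polynomial ℂ) : PowerSeries ℂ)

/-- the matrices `G_s` over `ℤ[x]` with `T^s y^(s) = G_s y` for all solutions `y` of `T y' = A y` -/
noncomputable def iter {r : ℕ} (T : Polynomial ℤ) (A : Fin r → Fin r → Polynomial ℤ) : ℕ → Fin r → Fin r → Polynomial ℤ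
  | 0 => fun i j => if i = j then 1 else 0
  | s + 1 => fun i j => T * Polynomial.derivative (iter T A s i j) + ∑ l, iter T A s i l * A l j -
      (s : Polynomial ℤ) * (Polynomial.derivative T * iter T A s i j)

/-- The system `T y' = A y` has a fundamental matrix of solutions of the form `u^(-M) ∑_n Φ_n(u) (log u)^n` with
`u^e = x` and convergent power series `Φ_n`: the point `0` is an ordinary point or a regular singularity with rational
exponents. -/
def QuasiUnipotent {r : ℕ} (T : Polynomial ℤ) (A : Fin r → Fin r → Polynomial ℤ) : Prop :=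
  ∃ (e M : ℕ) (K : ℝ) (Φ : Matrix (Fin r) (Fin r) (Polynomial (PowerSeries ℂ))), 1 ≤ e ∧ Φ.det ≠ 0 ∧
    (∀ i j n m, ‖coeff m ((Φ i j).coeff n)‖ ≤ K ^ (m + 1)) ∧
    ∀ i j n, atPow e T * (X * PowerSeries.derivative ℂ ((Φ i j).coeff n) +
        ((n : PowerSeries ℂ) + 1) * (Φ i j).coeff (n + 1) - (M : PowerSeries ℂ) * (Φ i j).coeff n) =
      (e : PowerSeries ℂ) * X ^ e * ∑ l, atPow e (A i l) * (Φ l j).coeff n

/-- `h_1, ..., h_r` are G-functions with rational coefficients which solve the differential system `T y' = A y`, with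
the conditions of Siegel and Galochkin, and the system is regular with rational exponents at `0`. -/
structure GFamily {r : ℕ} (T : Polynomial ℤ) (A : Fin r → Fin r → Polynomial ℤ) (h : Fin r → PowerSeries ℚ) : Prop where
  /-- the denominator is not zero -/
  T_ne : T ≠ 0
  /-- the differential equations -/
  ode : ∀ i, toQ T * PowerSeries.derivative ℚ (h i) = ∑ j, toQ (A i j) * h j
  /-- the coefficients have geometric growth -/
  size : ∃ C : ℝ, ∀ i m, |((coeff m (h i) : ℚ) : ℝ)| ≤ C ^ (m + 1)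
  /-- the common denominators of the coefficients have geometric growth -/
  den : ∃ C : ℝ, ∀ m : ℕ, ∃ d : ℕ, 0 < d ∧ (d : ℝ) ≤ C ^ (m + 1) ∧ ∀ i, ∀ j ≤ m, ∃ a : ℤ, (d : ℚ) * coeff j (h i) = a
  /-- Galochkin's condition: the common denominators of the matrices `G_s / s!` have geometric growth -/
  galochkin : ∃ C : ℝ, ∀ m : ℕ, ∃ d : ℕ, 0 < d ∧ (d : ℝ) ≤ C ^ (m + 1) ∧ ∀ s ≤ m, ∀ i j,
    ∃ H : Polynomial ℤ, (d : Polynomial ℤ) * iter T A s i j = (s.factorial : Polynomial ℤ) * H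
  /-- the local exponents at `0` are rational and the singularity is regular -/
  regular : QuasiUnipotent T A

/-- the entries of a matrix -/
def entries {n : ℕ} (H : Matrix (Fin n) (Fin n) (PowerSeries ℚ)) : Fin (n * n) → PowerSeries ℚ := fun a =>
  H (finProdFinEquiv.symm a).1 (finProdFinEquiv.symm a).2

/-- the nilpotent matrix of the local monodromy `exp (2 π i N)` at `x = 0` -/
def N (n : ℕ) : Matrix (Fin n) (Fin n) ℚ := Matrix.of fun i j => if (j : ℕ) = i + 1 then 1 else 0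

/-- rational matrices as complex matrices -/
def toC {n : ℕ} (M : Matrix (Fin n) (Fin n) ℚ) : Matrix (Fin n) (Fin n) ℂ := M.map fun x : ℚ => (x : ℂ)

/-- `S` is the matrix of a flat alternating form, invariant under the local monodromy `exp (2 π i N)`; its matrix with
respect to the algebraic basis is `H S Hᵀ = B / p`, and the first `m` sections span isotropic subspaces. -/
structure Polarised {m : ℕ} (H : Matrix (Fin (2 * m)) (Fin (2 * m)) (PowerSeries ℚ))
    (S : Matrix (Fin (2 * m)) (Fin (2 * m)) ℚ) (p : Polynomial ℚ)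
    (B : Matrix (Fin (2 * m)) (Fin (2 * m)) (Polynomial ℚ)) : Prop where
  S_skew : S.transpose = -S
  S_det : S.det ≠ 0
  S_inv : N (2 * m) * S + S * (N (2 * m)).transpose = 0
  p_ne : p ≠ 0
  B_det : B.det ≠ 0
  form : (p : PowerSeries ℚ) • (H * S.map (PowerSeries.C (R := ℚ)) * H.transpose) = B.map fun f => (f : PowerSeries ℚ)
  isotropic : ∀ i j : Fin (2 * m), (i : ℕ) < m → (j : ℕ) < m → B i j = 0

/-- the complex matrices `g` with `p(1/t) g S gᵀ = B(1/t)` -/
def formFibre {n : ℕ} (S : Matrix (Fin n) (Fin n) ℚ) (p : Polynomial ℚ) (B : Matrix (Fin n) (Fin n) (Polynomial ℚ))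
    (t : ℕ) : Set (Matrix (Fin n) (Fin n) ℂ) :=
  {g | ((p.eval (1 / (t : ℚ)) : ℚ) : ℂ) • (g * toC S * g.transpose) = toC (B.map fun f => f.eval (1 / (t : ℚ)))}

/-- specialisation at `x = 1 / t` -/
noncomputable def spec (t : ℕ) : Polynomial ℚ →+* ℂ := (algebraMap ℚ ℂ).comp (Polynomial.evalRingHom (1 / (t : ℚ)))

/-- The monodromy group is Zariski dense in the symplectic group: all polynomial relations `R(x, H(x)) = 0` over `ℚ[x]`
between the entries of `H` follow from `p H S Hᵀ = B`, that is, at all `x = 1 / t` with `p(x) ≠ 0`, `det B(x) ≠ 0` they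
hold at all matrices `g` with `p(x) g S gᵀ = B(x)`. -/
def FullMonodromy {n : ℕ} (H : Matrix (Fin n) (Fin n) (PowerSeries ℚ)) (S : Matrix (Fin n) (Fin n) ℚ) (p : Polynomial ℚ)
    (B : Matrix (Fin n) (Fin n) (Polynomial ℚ)) : Prop :=
  ∀ R : MvPolynomial (Fin n × Fin n) (Polynomial ℚ), MvPolynomial.aeval (fun a : Fin n × Fin n => H a.1 a.2) R = 0 →
    ∀ t : ℕ, p.eval (1 / (t : ℚ)) ≠ 0 → B.det.eval (1 / (t : ℚ)) ≠ 0 → ∀ g ∈ formFibre S p B t,
      MvPolynomial.eval₂ (spec t) (fun a => g a.1 a.2) R = 0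

/-- the period matrix `H(x) x^N = H(x) exp (N log x)` at `x = 1 / t` -/
noncomputable def per {n : ℕ} (H : Matrix (Fin n) (Fin n) (PowerSeries ℚ)) (t : ℕ) : Matrix (Fin n) (Fin n) ℂ :=
  (Matrix.of fun i j => ((∑' k : ℕ, ((coeff k (H i j) : ℚ) : ℝ) * (1 / (t : ℝ)) ^ k : ℝ) : ℂ)) *
    ∑ l ∈ Finset.range n, ((-((Real.log t : ℝ) : ℂ)) ^ l / (l.factorial : ℂ)) • toC (N n) ^ l

/-- The base change `C` from the flat basis to a rational basis is a rational structure with the polarisation `P`: the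
logarithm `2 π i C⁻¹ N C` of the local monodromy is rational and the flat form is proportional to the rational form `P` on
rows, `(v C⁻¹) S (w C⁻¹)ᵀ = κ v P wᵀ`. -/
structure RationalStructure {n : ℕ} (S : Matrix (Fin n) (Fin n) ℚ) (C : Matrix (Fin n) (Fin n) ℂ)
    (P : Matrix (Fin n) (Fin n) ℚ) : Prop where
  det : C.det ≠ 0
  log : ∃ M : Matrix (Fin n) (Fin n) ℚ, C * toC M = (2 * (Real.pi : ℂ) * Complex.I) • (toC (N n) * C)
  form : ∃ κ : ℂ, C⁻¹ * toC S * (C⁻¹).transpose = κ • toC P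

/-- The step `F^q` of the Hodge filtration at the point `x = 1 / t` in the rational coordinates: the span of the rows
`i < 2m - q` of the period matrix if `q ≥ m`, and the orthogonal complement of `F^{2m-q}` if `q < m`. -/
noncomputable def F {m : ℕ} (H : Matrix (Fin (2 * m)) (Fin (2 * m)) (PowerSeries ℚ)) (t : ℕ)
    (C : Matrix (Fin (2 * m)) (Fin (2 * m)) ℂ) (P : Matrix (Fin (2 * m)) (Fin (2 * m)) ℚ) (q : ℕ) :
    Submodule ℂ (Fin (2 * m) → ℂ) :=
  if m ≤ q then Submodule.span ℂ {v | ∃ i : Fin (2 * m), (i : ℕ) + q < 2 * m ∧ v = (per H t * C) i}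
  else
    { carrier := {v | ∀ j : Fin (2 * m), (j : ℕ) < q → dotProduct v (Matrix.mulVec (toC P) ((per H t * C) j)) = 0}
      add_mem' := fun {a b} ha hb j hj => by rw [add_dotProduct, ha j hj, hb j hj, add_zero]
      zero_mem' := fun j _ => zero_dotProduct _
      smul_mem' := fun c a ha j hj => by rw [smul_dotProduct, ha j hj, smul_zero] }

/-- The filtration `F` and its complex conjugate are opposed, that is, they define a Hodge structure of weight `n - 1`:
no non-zero vector `v` satisfies `v ∈ F^p` and `conj v ∈ F^{n-p}`. -/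
def IsHodge {n : ℕ} (F : ℕ → Submodule ℂ (Fin n → ℂ)) : Prop := ∀ p ≤ n, ∀ v ∈ F p, star v ∈ F (n - p) → v = 0

/-- the value at the rows `x_1, …, x_d` of the multilinear form of degree `d` with rational coefficients `T` -/
noncomputable def value {n d : ℕ} (T : (Fin d → Fin n) → ℚ) (x : Fin d → Fin n → ℂ) : ℂ :=
  ∑ J : Fin d → Fin n, (T J : ℂ) * ∏ l, x l (J l)

/-- The rational multilinear form `T` of degree `d` on the Hodge structure `V = ℚ^n` of weight `n - 1` is a Hodge tensor,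
that is, a morphism of Hodge structures from the tensor power `V^{⊗d}` to `ℚ(-d(n-1)/2)`: it vanishes on
`F^{p_1} ⊗ ⋯ ⊗ F^{p_d}` if `p_1 + ⋯ + p_d > d (n - 1) / 2`. -/
def IsHodgeTensor {n d : ℕ} (F : ℕ → Submodule ℂ (Fin n → ℂ)) (T : (Fin d → Fin n) → ℚ) : Prop :=
  ∀ p : Fin d → ℕ, d * (n - 1) < 2 * ∑ l, p l → ∀ x : Fin d → Fin n → ℂ, (∀ l, x l ∈ F (p l)) → value T x = 0

/-- All Hodge tensors of the Hodge structure `F` are rational linear combinations of products of values of the form `P`: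
for every `d` and every Hodge tensor `T` of degree `d`, `T(x_1, …, x_d) = ∑_e c_e ∏_s P(x_{e(s,0)}, x_{e(s,1)})` with
rational `c_e`; the sum is over the bijections `e : {1, …, k} × {0, 1} → {1, …, d}`, so `T = 0` if `d` is odd. -/
def OnlyPolarisation {n : ℕ} (F : ℕ → Submodule ℂ (Fin n → ℂ)) (P : Matrix (Fin n) (Fin n) ℚ) : Prop :=
  ∀ (d : ℕ) (T : (Fin d → Fin n) → ℚ), IsHodgeTensor F T →
    ∃ (k : ℕ) (c : (Fin k × Fin 2 ≃ Fin d) → ℚ), ∀ J, T J = ∑ e, c e * ∏ s, P (J (e (s, 0))) (J (e (s, 1)))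

theorem iter_eq {r : ℕ} (T : Polynomial ℤ) (A : Fin r → Fin r → Polynomial ℤ) (s : ℕ) :
    iter T A s = Pool.Agent.Y120.GH.itm T A s := by
  induction s with
  | zero => rfl
  | succ s ih =>
    funext i j
    rw [iter, Pool.Agent.Y120.GH.itm, ih]

theorem qu_eq {r : ℕ} {T : Polynomial ℤ} {A : Fin r → Fin r → Polynomial ℤ} (h : QuasiUnipotent T A) :
    Pool.Agent.Y120.GH.QU0 T A := by
  obtain ⟨e, M, K, Φ, he, hdet, hc, heq⟩ := h
  have he0 : e ≠ 0 := by omega
  refine ⟨e, he0, M, K, Φ, hc, fun i j n => ?_, hdet⟩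
  have h1 := heq i j n
  simp only [atPow] at h1
  rw [Pool.Agent.Y120.GH.expand_poly he0]
  simp only [Pool.Agent.Y120.GH.expand_poly he0]
  exact h1

theorem gal_eq {r : ℕ} {T : Polynomial ℤ} {A : Fin r → Fin r → Polynomial ℤ} {h : Fin r → PowerSeries ℚ}
    (hG : GFamily T A h) : ∃ C : ℝ, ∀ m, ∃ d : ℕ, 0 < d ∧ (d : ℝ) ≤ C ^ (m + 1) ∧ ∀ s ≤ m, ∀ i j, ∃ H : Polynomial ℤ,
      (d : Polynomial ℤ) * Pool.Agent.Y120.GH.itm T A s i j = (s.factorial : Polynomial ℤ) * H := by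
  obtain ⟨C, hC⟩ := hG.galochkin
  refine ⟨C, fun m => ?_⟩
  obtain ⟨d, h1, h2, h3⟩ := hC m
  refine ⟨d, h1, h2, fun s hs i' j' => ?_⟩
  rw [← iter_eq]
  exact h3 s hs i' j'

theorem map_eq {n : ℕ} (M : Matrix (Fin n) (Fin n) ℚ) : toC M = Pool.Agent.Y119.HY.cm M := by
  ext i j
  rw [Pool.Agent.Y119.HY.cm_apply]
  rfl

theorem per_eq {n : ℕ} (H : Matrix (Fin n) (Fin n) (PowerSeries ℚ)) (t : ℕ) (C : Matrix (Fin n) (Fin n) ℂ) :
    per H t * C = Pool.Agent.Y118.HV.Vt H t C := by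
  unfold per Pool.Agent.Y118.HV.Vt
  rw [map_eq, Matrix.mul_assoc]
  rfl

theorem F_eq {m : ℕ} (H : Matrix (Fin (2 * m)) (Fin (2 * m)) (PowerSeries ℚ)) (t : ℕ)
    (C : Matrix (Fin (2 * m)) (Fin (2 * m)) ℂ) (P : Matrix (Fin (2 * m)) (Fin (2 * m)) ℚ) (q : ℕ) :
    F H t C P q = Pool.Agent.Y118.HX.Fl (Pool.Agent.Y118.HV.vr (Pool.Agent.Y118.HV.Vt H t C))
      (Pool.Agent.Y119.HY.cm P) q := by
  by_cases hq : m ≤ q
  · rw [Pool.Agent.Y118.HX.Fl_hi hq]
    unfold F
    rw [if_pos hq]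
    congr 1
    ext v
    constructor
    · rintro ⟨i, hi, rfl⟩
      exact ⟨i, hi, by rw [per_eq, Pool.Agent.Y118.HV.vr_fin]⟩
    · rintro ⟨i, hi, rfl⟩
      exact ⟨⟨i, by omega⟩, hi, by rw [per_eq]; exact Pool.Agent.Y118.HV.vr_fin _ ⟨i, by omega⟩⟩
  · ext v
    rw [Pool.Agent.Y118.HX.mem_Fl_lo (not_le.1 hq)]
    unfold F
    rw [if_neg hq]
    show (∀ j : Fin (2 * m), (j : ℕ) < q → dotProduct v (Matrix.mulVec (toC P) ((per H t * C) j)) = 0) ↔ _
    rw [map_eq, per_eq]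
    constructor
    · intro h j hj
      have h1 := h ⟨j, by omega⟩ hj
      have h2 := Pool.Agent.Y118.HV.vr_fin (Pool.Agent.Y118.HV.Vt H t C) ⟨j, by omega⟩
      rw [← h2] at h1
      exact h1
    · intro h j hj
      have h1 := h j hj
      rw [Pool.Agent.Y118.HV.vr_fin] at h1
      exact h1

/-- from the form on rows to the dual form -/
theorem dual_of {m : ℕ} (hm : 1 ≤ m) {S : Matrix (Fin (2 * m)) (Fin (2 * m)) ℚ} (hS : S.det ≠ 0)
    {C : Matrix (Fin (2 * m)) (Fin (2 * m)) ℂ} {P : Matrix (Fin (2 * m)) (Fin (2 * m)) ℚ}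
    {κ : ℂ} (hC : C.det ≠ 0) (hP : C⁻¹ * toC S * (C⁻¹).transpose = κ • toC P) :
    P.det ≠ 0 ∧ C.transpose * Pool.Agent.Y119.HY.cm S⁻¹ * C = κ⁻¹ • Pool.Agent.Y119.HY.cm P⁻¹ := by
  rw [map_eq, map_eq] at hP
  have hSu : IsUnit S.det := isUnit_iff_ne_zero.2 hS
  have s2 : Pool.Agent.Y119.HY.cm S⁻¹ * Pool.Agent.Y119.HY.cm S = 1 := by
    rw [← Pool.Agent.Y119.HY.cm_mul, Matrix.nonsing_inv_mul _ hSu, Pool.Agent.Y119.HY.cm_one]
  have hu : IsUnit C.det := isUnit_iff_ne_zero.2 hC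
  have e1 : C * C⁻¹ = 1 := Matrix.mul_nonsing_inv _ hu
  have e2 : C.transpose * (C⁻¹).transpose = 1 := by
    rw [← Matrix.transpose_mul, Matrix.nonsing_inv_mul _ hu, Matrix.transpose_one]
  set X := C.transpose * Pool.Agent.Y119.HY.cm S⁻¹ * C with hX
  have h1 : X * (κ • Pool.Agent.Y119.HY.cm P) = 1 := by
    rw [← hP, hX]
    calc (C.transpose * Pool.Agent.Y119.HY.cm S⁻¹ * C) * (C⁻¹ * Pool.Agent.Y119.HY.cm S * (C⁻¹).transpose) =
          C.transpose * Pool.Agent.Y119.HY.cm S⁻¹ * (C * C⁻¹) * Pool.Agent.Y119.HY.cm S * (C⁻¹).transpose := by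
          simp only [Matrix.mul_assoc]
      _ = C.transpose * (Pool.Agent.Y119.HY.cm S⁻¹ * Pool.Agent.Y119.HY.cm S) * (C⁻¹).transpose := by
          rw [e1, Matrix.mul_one]
          simp only [Matrix.mul_assoc]
      _ = 1 := by rw [s2, Matrix.mul_one, e2]
  have hκ : κ ≠ 0 := by
    intro h0
    rw [h0, zero_smul, Matrix.mul_zero] at h1
    have h2 := congrFun (congrFun h1 ⟨0, by omega⟩) ⟨0, by omega⟩
    rw [Matrix.zero_apply, Matrix.one_apply_eq] at h2
    exact zero_ne_one h2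
  have hPd : P.det ≠ 0 := by
    intro h0
    have h2 : (κ • Pool.Agent.Y119.HY.cm P).det = 0 := by
      rw [Matrix.det_smul, Pool.Agent.Y118.HV.cm_det, h0, Rat.cast_zero, mul_zero]
    have h3 := congrArg Matrix.det h1
    rw [Matrix.det_mul, h2, mul_zero, Matrix.det_one] at h3
    exact zero_ne_one h3
  refine ⟨hPd, ?_⟩
  have hPu : IsUnit P.det := isUnit_iff_ne_zero.2 hPd
  have e3 : Pool.Agent.Y119.HY.cm P * Pool.Agent.Y119.HY.cm P⁻¹ = 1 := by
    rw [← Pool.Agent.Y119.HY.cm_mul, Matrix.mul_nonsing_inv _ hPu, Pool.Agent.Y119.HY.cm_one]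
  calc X = X * ((κ • Pool.Agent.Y119.HY.cm P) * (κ⁻¹ • Pool.Agent.Y119.HY.cm P⁻¹)) := by
        rw [Matrix.smul_mul, Matrix.mul_smul (Pool.Agent.Y119.HY.cm P), smul_smul, mul_inv_cancel₀ hκ, one_smul, e3,
          Matrix.mul_one]
    _ = κ⁻¹ • Pool.Agent.Y119.HY.cm P⁻¹ := by
        rw [← Matrix.mul_assoc, h1, Matrix.one_mul]

/-- pairs of points -/
theorem pairs {m : ℕ} (hm : 2 ≤ m) (T : Polynomial ℤ) (A : Fin (2 * m * (2 * m)) → Fin (2 * m * (2 * m)) → Polynomial ℤ)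
    (H : Matrix (Fin (2 * m)) (Fin (2 * m)) (PowerSeries ℚ)) (hG : GFamily T A (entries H))
    (S : Matrix (Fin (2 * m)) (Fin (2 * m)) ℚ) (p : Polynomial ℚ) (B : Matrix (Fin (2 * m)) (Fin (2 * m)) (Polynomial ℚ))
    (hP : Polarised H S p B) (hM : FullMonodromy H S p B) :
    ∃ G E : ℕ, 0 < G ∧ 1 ≤ E ∧ ∀ t₁ t₂ : ℕ, t₁ < t₂ → G ∣ t₂ - t₁ → (t₂ - t₁) ^ E ≤ t₁ →
      ∀ (C : Matrix (Fin (2 * m)) (Fin (2 * m)) ℂ) (P : Matrix (Fin (2 * m)) (Fin (2 * m)) ℚ), RationalStructure S C P →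
        IsHodge (F H t₁ C P) → IsHodge (F H t₂ C P) →
          OnlyPolarisation (F H t₁ C P) P ∨ OnlyPolarisation (F H t₂ C P) P := by
  have hpi : (2 * (Real.pi : ℂ) * Complex.I) ≠ 0 := Complex.two_pi_I_ne_zero
  obtain ⟨q', C', hGS⟩ := Pool.Agent.Y120.GH.gsys_of hG.ode hG.size hG.den (gal_eq hG)
  obtain ⟨G, E, hG2, hE1, hmain⟩ := Pool.Agent.Y118.HV.win_tensorG (H := H) hm hG.T_ne hG.ode hGS (qu_eq hG.regular)
    hP.S_skew hP.S_det hP.p_ne hP.B_det hP.S_inv hP.isotropic hP.form (fun R hR t h1 h2 g hg => by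
      refine hM R hR t h1 ?_ g ?_
      · rw [Pool.Agent.Y118.HV.bm_det] at h2
        exact h2
      · show _ • _ = _
        rw [map_eq, map_eq]
        exact hg)
  refine ⟨G, E, by omega, hE1, fun t₁ t₂ h1 h2 h3 C P hC hF1 hF2 => ?_⟩
  obtain ⟨hdet, ⟨M, hMM⟩, κ, hPP⟩ := hC
  obtain ⟨hPd, hQ⟩ := dual_of (by omega) hP.S_det hdet hPP
  rw [map_eq, map_eq] at hMM
  have hPP : P⁻¹⁻¹ = P := Matrix.nonsing_inv_nonsing_inv _ (isUnit_iff_ne_zero.2 hPd)
  have hSs : (Pool.Agent.Y119.HY.cm S⁻¹).transpose = -Pool.Agent.Y119.HY.cm S⁻¹ := by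
    have h1 : (S⁻¹).transpose = -S⁻¹ := by
      rw [Matrix.transpose_nonsing_inv, hP.S_skew]
      refine Matrix.inv_eq_left_inv ?_
      rw [Matrix.neg_mul, Matrix.mul_neg, neg_neg, Matrix.nonsing_inv_mul _ (isUnit_iff_ne_zero.2 hP.S_det)]
    rw [← Pool.Agent.Y119.HY.cm_neg, ← h1]
    rfl
  obtain ⟨-, hQd, hsk⟩ := Pool.Agent.Y118.HV.kappa_neG hSs hP.S_det hdet hQ (by omega)
  have hFe : ∀ t q, F H t C P q = Pool.Agent.Y118.HX.Fl (Pool.Agent.Y118.HV.vr (Pool.Agent.Y118.HV.Vt H t C))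
      (Pool.Agent.Y119.HY.cm P⁻¹⁻¹) q := fun t q => by rw [hPP]; exact F_eq H t C P q
  have hopp : ∀ t, IsHodge (F H t C P) → ∀ q ≤ 2 * m,
      Pool.Agent.Y118.HX.Fl (Pool.Agent.Y118.HV.vr (Pool.Agent.Y118.HV.Vt H t C))
      (Pool.Agent.Y119.HY.cm P⁻¹⁻¹) q ⊓ Pool.Agent.Y118.HX.cj (Pool.Agent.Y118.HX.Fl
      (Pool.Agent.Y118.HV.vr (Pool.Agent.Y118.HV.Vt H t C)) (Pool.Agent.Y119.HY.cm P⁻¹⁻¹) (2 * m - q)) = ⊥ := by
    intro t hF q hq
    rw [eq_bot_iff]
    intro v hv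
    rw [Submodule.mem_inf, Pool.Agent.Y118.HX.mem_cj, ← hFe, ← hFe] at hv
    rw [Submodule.mem_bot]
    exact hF q hq v hv.1 hv.2
  have hval : ∀ {d : ℕ} (T : (Fin d → Fin (2 * m)) → ℚ) (x : Fin d → Fin (2 * m) → ℂ),
      value T x = Pool.Agent.Y118.HX.evx x (Pool.Agent.Y118.HX.cmT T) := by
    intro d T x
    unfold value Pool.Agent.Y118.HX.evx Pool.Agent.Y118.HX.cmT
    exact Finset.sum_congr rfl fun J _ => mul_comm _ _
  by_contra hcon
  push Not at hcon
  obtain ⟨hn1, hn2⟩ := hcon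
  unfold OnlyPolarisation at hn1 hn2
  push Not at hn1 hn2
  obtain ⟨d1, T1, hT1, hn1⟩ := hn1
  obtain ⟨d2, T2, hT2, hn2⟩ := hn2
  have hT : ∀ {t d : ℕ} {T : (Fin d → Fin (2 * m)) → ℚ}, IsHodgeTensor (F H t C P) T → ∀ q : Fin d → ℕ,
      d * (2 * m - 1) < 2 * ∑ l, q l → ∀ x : Fin d → Fin (2 * m) → ℂ,
      (∀ l, x l ∈ Pool.Agent.Y118.HX.Fl (Pool.Agent.Y118.HV.vr (Pool.Agent.Y118.HV.Vt H t C))
        (Pool.Agent.Y119.HY.cm P⁻¹⁻¹) (q l)) → Pool.Agent.Y118.HX.evx x (Pool.Agent.Y118.HX.cmT T) = 0 := by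
    intro t d T hT q hq x hx
    rw [← hval]
    refine hT q hq x fun l => ?_
    rw [hFe]
    exact hx l
  obtain ⟨j, hj⟩ := hmain (Pool.Agent.Y118.HX.dd2 t₁ t₂) h1 h2 h3 C M P⁻¹ _ _ hdet hpi hMM hQ (fun j => by
    fin_cases j
    · exact hopp t₁ hF1
    · exact hopp t₂ hF2) (Pool.Agent.Y118.HX.dd2 d1 d2) (Pool.Agent.Y118.HX.TT2 T1 T2) (fun j => by
    fin_cases j
    · exact hT hT1
    · exact hT hT2)
  fin_cases j
  · obtain ⟨k, c, hc⟩ := Pool.Agent.Y118.HX.fft_rat hQd hsk (T := T1) hj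
    rw [hPP] at hc
    obtain ⟨J, hJ⟩ := hn1 k c
    exact hJ (hc J)
  · obtain ⟨k, c, hc⟩ := Pool.Agent.Y118.HX.fft_rat hQd hsk (T := T2) hj
    rw [hPP] at hc
    obtain ⟨J, hJ⟩ := hn2 k c
    exact hJ (hc J)

/-- all large points, rank at least eight -/
theorem single {m : ℕ} (hm : 4 ≤ m) (T : Polynomial ℤ) (A : Fin (2 * m * (2 * m)) → Fin (2 * m * (2 * m)) → Polynomial ℤ)
    (H : Matrix (Fin (2 * m)) (Fin (2 * m)) (PowerSeries ℚ)) (hG : GFamily T A (entries H))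
    (S : Matrix (Fin (2 * m)) (Fin (2 * m)) ℚ) (p : Polynomial ℚ) (B : Matrix (Fin (2 * m)) (Fin (2 * m)) (Polynomial ℚ))
    (hP : Polarised H S p B) (hM : FullMonodromy H S p B) :
    ∃ t₀ : ℕ, ∀ t : ℕ, t₀ ≤ t →
      ∀ (C : Matrix (Fin (2 * m)) (Fin (2 * m)) ℂ) (P : Matrix (Fin (2 * m)) (Fin (2 * m)) ℚ), RationalStructure S C P →
        IsHodge (F H t C P) → OnlyPolarisation (F H t C P) P := by
  have hpi : (2 * (Real.pi : ℂ) * Complex.I) ≠ 0 := Complex.two_pi_I_ne_zero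
  obtain ⟨q', C', hGS⟩ := Pool.Agent.Y120.GH.gsys_of hG.ode hG.size hG.den (gal_eq hG)
  obtain ⟨t₀, hmain⟩ := Pool.Agent.Y118.HV.all_tensorG (H := H) hm hG.T_ne hG.ode hGS (qu_eq hG.regular)
    hP.S_skew hP.S_det hP.p_ne hP.B_det hP.S_inv hP.isotropic hP.form (fun R hR t h1 h2 g hg => by
      refine hM R hR t h1 ?_ g ?_
      · rw [Pool.Agent.Y118.HV.bm_det] at h2
        exact h2
      · show _ • _ = _
        rw [map_eq, map_eq]
        exact hg)
  refine ⟨t₀, fun t h1 C P hC hF => ?_⟩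
  obtain ⟨hdet, ⟨M, hMM⟩, κ, hPP⟩ := hC
  obtain ⟨hPd, hQ⟩ := dual_of (by omega) hP.S_det hdet hPP
  rw [map_eq, map_eq] at hMM
  have hPP : P⁻¹⁻¹ = P := Matrix.nonsing_inv_nonsing_inv _ (isUnit_iff_ne_zero.2 hPd)
  have hSs : (Pool.Agent.Y119.HY.cm S⁻¹).transpose = -Pool.Agent.Y119.HY.cm S⁻¹ := by
    have h1 : (S⁻¹).transpose = -S⁻¹ := by
      rw [Matrix.transpose_nonsing_inv, hP.S_skew]
      refine Matrix.inv_eq_left_inv ?_
      rw [Matrix.neg_mul, Matrix.mul_neg, neg_neg, Matrix.nonsing_inv_mul _ (isUnit_iff_ne_zero.2 hP.S_det)]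
    rw [← Pool.Agent.Y119.HY.cm_neg, ← h1]
    rfl
  obtain ⟨-, hQd, hsk⟩ := Pool.Agent.Y118.HV.kappa_neG hSs hP.S_det hdet hQ (by omega)
  have hFe : ∀ q, F H t C P q = Pool.Agent.Y118.HX.Fl (Pool.Agent.Y118.HV.vr (Pool.Agent.Y118.HV.Vt H t C))
      (Pool.Agent.Y119.HY.cm P⁻¹⁻¹) q := fun q => by rw [hPP]; exact F_eq H t C P q
  intro d T hT
  have hj := hmain t h1 C M P⁻¹ _ _ hdet hpi hMM hQ (by
    intro q hq
    rw [eq_bot_iff]
    intro v hv
    rw [Submodule.mem_inf, Pool.Agent.Y118.HX.mem_cj, ← hFe, ← hFe] at hv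
    rw [Submodule.mem_bot]
    exact hF q hq v hv.1 hv.2) d T (by
    intro q hq x hx
    have h2 : value T x = Pool.Agent.Y118.HX.evx x (Pool.Agent.Y118.HX.cmT T) := by
      unfold value Pool.Agent.Y118.HX.evx Pool.Agent.Y118.HX.cmT
      exact Finset.sum_congr rfl fun J _ => mul_comm _ _
    rw [← h2]
    refine hT q hq x fun l => ?_
    rw [hFe]
    exact hx l)
  obtain ⟨k, c, hc⟩ := Pool.Agent.Y118.HX.fft_rat hQd hsk (T := T) hj
  rw [hPP] at hc
  exact ⟨k, c, hc⟩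

/-- Let `m ≥ 2` and let `H` be a `2m × 2m` matrix of G-functions, polarised by `S` and with full symplectic monodromy
group. (A) There are `G` and `E` such that for all integers `t₁ < t₂` with `t₂ ≡ t₁` modulo `G` and `(t₂ - t₁)^E ≤ t₁` and
all rational structures `C` with a polarisation `P` at most one of the points `1 / t₁`, `1 / t₂` is in the Hodge locus:
at least at one of the two points all Hodge tensors are rational linear combinations of products of polarisations.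
(B) There are `K` and `δ > 0` such that for all `N ≥ 1` and all rational structures `C` with a polarisation `P` the
number of `t ≤ N` for which `1 / t` is in the Hodge locus is at most `K N^(1-δ)`.
(C) If `m ≥ 4` then there is `t₀` such that for all `t ≥ t₀` and all rational structures `C` with a polarisation `P`
the point `1 / t` is not in the Hodge locus. -/
theorem result {m : ℕ} (hm : 2 ≤ m) (T : Polynomial ℤ) (A : Fin (2 * m * (2 * m)) → Fin (2 * m * (2 * m)) → Polynomial ℤ)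
    (H : Matrix (Fin (2 * m)) (Fin (2 * m)) (PowerSeries ℚ)) (hG : GFamily T A (entries H))
    (S : Matrix (Fin (2 * m)) (Fin (2 * m)) ℚ) (p : Polynomial ℚ) (B : Matrix (Fin (2 * m)) (Fin (2 * m)) (Polynomial ℚ))
    (hP : Polarised H S p B) (hM : FullMonodromy H S p B) :
    (∃ G E : ℕ, 0 < G ∧ ∀ t₁ t₂ : ℕ, t₁ < t₂ → G ∣ t₂ - t₁ → (t₂ - t₁) ^ E ≤ t₁ →
      ∀ (C : Matrix (Fin (2 * m)) (Fin (2 * m)) ℂ) (P : Matrix (Fin (2 * m)) (Fin (2 * m)) ℚ), RationalStructure S C P →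
        IsHodge (F H t₁ C P) → IsHodge (F H t₂ C P) →
          OnlyPolarisation (F H t₁ C P) P ∨ OnlyPolarisation (F H t₂ C P) P) ∧
    (∃ K δ : ℝ, 0 < δ ∧ ∀ N : ℕ, 1 ≤ N →
      ∀ (C : Matrix (Fin (2 * m)) (Fin (2 * m)) ℂ) (P : Matrix (Fin (2 * m)) (Fin (2 * m)) ℚ), RationalStructure S C P →
        (({t | (IsHodge (F H t C P) ∧ ¬ OnlyPolarisation (F H t C P) P) ∧ t ≤ N}.ncard : ℕ) : ℝ) ≤
          K * (N : ℝ) ^ (1 - δ)) ∧
    (4 ≤ m → ∃ t₀ : ℕ, ∀ t : ℕ, t₀ ≤ t →
      ∀ (C : Matrix (Fin (2 * m)) (Fin (2 * m)) ℂ) (P : Matrix (Fin (2 * m)) (Fin (2 * m)) ℚ), RationalStructure S C P →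
        IsHodge (F H t C P) → OnlyPolarisation (F H t C P) P) := by
  obtain ⟨G, E, hG0, hE1, h⟩ := pairs hm T A H hG S p B hP hM
  refine ⟨⟨G, E, hG0, h⟩, ?_, fun hm4 => single hm4 T A H hG S p B hP hM⟩
  obtain ⟨K, δ, hδ, hK⟩ := Pool.Agent.Y118.HV.count_bad hG0 hE1
  refine ⟨K, δ, hδ, fun N hN C P hC => ?_⟩
  refine hK {t | IsHodge (F H t C P) ∧ ¬ OnlyPolarisation (F H t C P) P} (fun a ha b hb hab hdvd => ?_) N hN
  by_contra hlt
  push Not at hlt
  rcases h a b hab hdvd hlt C P hC ha.1 hb.1 with h1 | h1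
  · exact ha.2 h1
  · exact hb.2 h1

end Pool.Agent.Results.MP_eeb1a4_ag.CalabiYauHodgeLocus
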