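import Pool.Agent.Y92.RS.EllProof

/-!
# Zilber-Pink for the variations with graded pieces `ℚ(0)` and `H¹(E)(2)`

Let `X` be a compact connected Riemann surface, `D ⊂ X` the set of punctures and `V` an admissible
variation of mixed Hodge structure over the curve `X ∖ D`, extension of `ℚ(0)` by `H¹(2)`, where
`H¹` is a polarized variation of weight one and rank two (for instance `H¹(E)`, `E` a family of
elliptic curves; extensions of this kind are the regulators of classes in `K₂(E)`).
The Mumford-Tate domain of the group `GL₂ ⋉ H¹(2)` is `ℍ × ℂ²`; it is not of Shimura type.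

The theorem says that the atypical Hodge locus of `V` is a finite set of points, for every
such `V`.
-/

namespace Pool.Agent.Results.MP_eeb1a4_ag.EllipticKTwo

open Pool.Agent.Y92.Ell

/-- **The Zilber-Pink conjecture for all admissible variations `V` over a curve with
`Gr^W V = ℚ(0) ⊕ H¹(2)`, `H¹` of weight one and rank two.**  The atypical Hodge locus is
finite. -/
theorem result (X : Type) [TopologicalSpace X] [ChartedSpace ℂ X]
    [IsManifold (modelWithCornersSelf ℂ ℂ) 1 X] [CompactSpace X] [ConnectedSpace X] [T2Space X]
    (D : Set X) (V : Variation X D) : {x | V.IsAtypical x}.Finite :=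
  V.atypical_finite

end Pool.Agent.Results.MP_eeb1a4_ag.EllipticKTwo
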