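import Pool.Agent.Y119.HA.Win2
import Pool.Agent.Y119.HA.Cnt
import Pool.Agent.Y730.MT.Nf
import Pool.Agent.Y730.MT.Td

/-!
# Windows of algebraic points of the hypergeometric variations of Hodge structure of rank at least 4

Let `β_1, …, β_m` be rational numbers in `(0, 1)` and `θ = z d/dz`. The hypergeometric operator
`θ^(2m) - z ∏_j (θ + β_j) (θ + 1 - β_j)` has maximally unipotent monodromy at `z = 0` and underlies an irreducible
variation of Hodge structure of rank `2m` and of weight `2m - 1` with all Hodge numbers `h^{p,q} = 1` on the projective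
line minus three points, with generic Mumford–Tate group `GSp(2m)`; it is defined over `ℚ` if the set of the
`exp (2 π i β_j)^{±1}` with multiplicities is Galois stable. For `m = 2` and `β = (1/5, 2/5)` it is the variation of the
mirror quintic threefolds. In coordinates with respect to the Frobenius basis `f_0, …, f_{2m-1}` of solutions the step
`F^p`, `p ≥ m`, of the Hodge filtration is spanned by the rows `(θ^i f_0, …, θ^i f_{2m-1})`, `i + p < 2m`. The rational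
structure is given by an invertible matrix `C`, with periods of the limiting mixed Hodge structure as entries. We prove
for `m ≥ 2`: around every algebraic number `ξ` of bounded degree and of height at most a power of `|ξ|` almost all of the
fibres at the points `z = 1 / (ξ - G u)`, `u = 1, 2, …`, are Hodge generic, with at most `m + 1` exceptions in each window,
uniformly in all rational structures; hence almost all algebraic integers of bounded degree are Hodge generic points.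
-/

set_option autoImplicit false

open PowerSeries

namespace Pool.Agent.Results.MP_eeb1a4_ag.HodgeAlgebraicWindows

/-- the power series `x + ε` in the variable `ε` -/
noncomputable def shift (x : ℚ) : PowerSeries ℚ := C x + X

/-- `a_k(ε) = ∏_{l < k} ∏_j (l + ε + β_j) (l + ε + 1 - β_j) / (l + 1 + ε)^2`. The series `∑_k a_k(ε) z^(k + ε)` satisfies
`(θ^n - z ∏_j (θ + β_j) (θ + 1 - β_j)) f = ε^n z^ε`, `n = 2m`, hence its coefficients `f_j` at `ε^j` with `j < n` are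
solutions of the homogeneous equation. -/
noncomputable def frob {m : ℕ} (β : Fin m → ℚ) (k : ℕ) : PowerSeries ℚ :=
  ∏ l ∈ Finset.range k, ∏ j, (shift (l + β j) * shift (l + 1 - β j) * ((shift (l + 1))⁻¹) ^ 2)

/-- The row `((θ^i f_j)(1 / ξ))_j`, where `f_j(z)` is the coefficient of `ε^j` in the series `∑_k a_k(ε) z^(k + ε)`,
`z^ε = ∑_a (log z)^a ε^a / a!`, with the value `-l` of `log z`, where `exp l = ξ`. -/
noncomputable def per {m : ℕ} (β : Fin m → ℚ) (ξ l : ℂ) (i : ℕ) : Fin (2 * m) → ℂ := fun j =>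
  ∑ a ∈ Finset.range ((j : ℕ) + 1), (-l) ^ a / (a.factorial : ℂ) *
    ∑' k : ℕ, ((coeff ((j : ℕ) - a) (shift k ^ i * frob β k) : ℚ) : ℂ) * (1 / ξ) ^ k

/-- The nilpotent matrix: `exp (2 π i N)` is the local monodromy at `z = 0` in the basis `f_0, …, f_{n-1}`. -/
def N (n : ℕ) : Matrix (Fin n) (Fin n) ℂ := Matrix.of fun i j => if (j : ℕ) = i + 1 then 1 else 0

/-- the matrix of the flat alternating form in the Frobenius basis -/
def S (n : ℕ) : Matrix (Fin n) (Fin n) ℂ := Matrix.of fun i j => if (i : ℕ) + j + 1 = n then (-1) ^ (i : ℕ) else 0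

/-- a rational matrix as a complex matrix -/
def toC {n : ℕ} (M : Matrix (Fin n) (Fin n) ℚ) : Matrix (Fin n) (Fin n) ℂ := M.map fun x : ℚ => (x : ℂ)

/-- The base change `C` from the Frobenius basis to rational coordinates and the rational form `(v, w) ↦ v A wᵀ` on
`ℚ^n` (row vectors) are a rational structure with a form: the logarithm `2 π i C⁻¹ N C` of the local monodromy is rational
and the form is proportional to the flat form `S`. -/
structure RationalStructure {n : ℕ} (C : Matrix (Fin n) (Fin n) ℂ) (A : Matrix (Fin n) (Fin n) ℚ) : Prop where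
  det : C.det ≠ 0
  log : ∃ M : Matrix (Fin n) (Fin n) ℚ, C * toC M = (2 * (Real.pi : ℂ) * Complex.I) • (N n * C)
  form : ∃ κ : ℂ, κ ≠ 0 ∧ C * toC A * C.transpose = κ • S n

/-- `H p = H^{p, n-1-p}`, `p < n = 2m`, are the parts of a Hodge structure of weight `n - 1` on `ℚ^n`, polarised by `± A`,
the steps `F^p = ⨁_{r ≥ p} H^{r, n-1-r}`, `p ≥ m`, of whose Hodge filtration are the spans of the derivatives of order
`< n - p` of the period vector at the point `z = 1 / ξ` (the other steps are their orthogonal complements). -/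
structure IsFibre {m : ℕ} (β : Fin m → ℚ) (ξ l : ℂ) (C : Matrix (Fin (2 * m)) (Fin (2 * m)) ℂ)
    (A : Matrix (Fin (2 * m)) (Fin (2 * m)) ℚ) (H : ℕ → Submodule ℂ (Fin (2 * m) → ℂ)) : Prop where
  fil : ∀ p, m ≤ p → (⨆ r : {r : ℕ // p ≤ r ∧ r < 2 * m}, H r) =
    Submodule.span ℂ {v | ∃ i : ℕ, i + p < 2 * m ∧ v = Matrix.vecMul (per β ξ l i) C}
  conj : ∀ p < 2 * m, ∀ v ∈ H p, (fun i => star (v i)) ∈ H (2 * m - 1 - p)
  orth : ∀ p < 2 * m, ∀ r < 2 * m, p + r ≠ 2 * m - 1 → ∀ v ∈ H p, ∀ w ∈ H r,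
    dotProduct v (Matrix.mulVec (toC A) w) = 0
  pos : ∃ ε : ℂ, (ε = 1 ∨ ε = -1) ∧ ∀ p < 2 * m, ∀ v ∈ H p, v ≠ 0 →
    0 < (ε * (Complex.I ^ p * (-Complex.I) ^ (2 * m - 1 - p)) *
      dotProduct v (Matrix.mulVec (toC A) fun i => star (v i))).re

/-- The Hodge operator `Φ` is the multiplication by `p` on `H^{p, n-1-p}`; it generates with the scalars the Lie algebra of
the image of the Deligne torus and is the derivative of the cocharacter `z ↦ (z^p on H^{p,q})`. Matrices act on row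
vectors from the right. -/
def IsHodgeOperator {m : ℕ} (H : ℕ → Submodule ℂ (Fin (2 * m) → ℂ)) (Φ : Matrix (Fin (2 * m)) (Fin (2 * m)) ℂ) : Prop :=
  ∀ p < 2 * m, ∀ v ∈ H p, Matrix.vecMul v Φ = (p : ℂ) • v

/-- `ξ` is a root of a nonzero integral polynomial of degree at most `g` with coefficients of size at most `|ξ|^A` -/
def Height (g A : ℕ) (ξ : ℂ) : Prop :=
  ∃ p : Polynomial ℤ, p ≠ 0 ∧ p.natDegree ≤ g ∧ (∀ j, |(p.coeff j : ℝ)| ≤ ‖ξ‖ ^ A) ∧ Polynomial.aeval ξ p = 0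

/-- `ξ` is an algebraic integer of degree at most `g` all of whose conjugates have absolute value at most `T` -/
def House (g T : ℕ) (ξ : ℂ) : Prop :=
  IsIntegral ℤ ξ ∧ (minpoly ℚ ξ).natDegree ≤ g ∧ ∀ z : ℂ, Polynomial.aeval z (minpoly ℚ ξ) = 0 → ‖z‖ ≤ T

/-- The fibre at the point `z = 1 / ξ` of the variation with rational structure `C` and form `A` is Hodge generic: for every
logarithm `l` of `ξ` and every Hodge structure `H` on `ℚ^(2m)` which is this fibre, every rational Lie algebra of matrices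
whose complexification contains the Hodge operator (for example the Lie algebra of the Mumford–Tate group of `H`) contains
the whole symplectic Lie algebra of the form `A`. -/
def HodgeGeneric {m : ℕ} (β : Fin m → ℚ) (ξ : ℂ) (C : Matrix (Fin (2 * m)) (Fin (2 * m)) ℂ)
    (A : Matrix (Fin (2 * m)) (Fin (2 * m)) ℚ) : Prop :=
  ∀ l : ℂ, Complex.exp l = ξ → ∀ H : ℕ → Submodule ℂ (Fin (2 * m) → ℂ), IsFibre β ξ l C A H →
    ∀ 𝔪 : Submodule ℚ (Matrix (Fin (2 * m)) (Fin (2 * m)) ℚ), (∀ X ∈ 𝔪, ∀ Y ∈ 𝔪, X * Y - Y * X ∈ 𝔪) →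
    (∀ Φ, IsHodgeOperator H Φ → Φ ∈ Submodule.span ℂ (toC '' (𝔪 : Set (Matrix (Fin (2 * m)) (Fin (2 * m)) ℚ)))) →
    ∀ X : Matrix (Fin (2 * m)) (Fin (2 * m)) ℚ, X * A + A * X.transpose = 0 → X ∈ 𝔪

theorem N_eq (n : ℕ) : N n = Pool.Agent.Y113.MT.NN ℂ n := rfl

theorem S_eq (n : ℕ) : S n = Pool.Agent.Y113.MT.SS ℂ n := rfl

theorem toC_eq {n : ℕ} (M : Matrix (Fin n) (Fin n) ℚ) : toC M = Pool.Agent.Y113.MT.cq M := rfl

/-- Let `m ≥ 2` and let `β_1, …, β_m` be rational numbers in `(0, 1)`.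
(1) For all sufficiently large `G` and all `g`, `A₀` there is `E` such that for all `H` and all algebraic numbers `ξ` of
degree `≤ g` and of height `≤ |ξ|^A₀` with `(H + 2)^E ≤ |ξ|` and all rational structures `(C, A)` the fibres at the points
`z = 1 / (ξ - G u)`, `1 ≤ u ≤ H`, are Hodge generic with at most `m + 1` exceptions.
(2) For all sufficiently large `G`, all `g`, `A₀` and all rational structures `(C, A)` there is `E` such that for all `H` and
`ξ` as in (1) the fibres at the points `z = 1 / (ξ - G u)`, `1 ≤ u ≤ H`, are Hodge generic with a set of exceptions whose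
cardinality is at most the transcendence degree of the field generated by the entries of `C`.
(3) For all `g ≥ 1` there are `c > 0` and `K` such that for all rational structures `(C, A)` and all `T ≥ 1` at most
`K T^(-c) N` of the `N` algebraic integers `ξ` of degree `≤ g` with all conjugates of absolute value `≤ T` have `|ξ| > 1` and
a fibre at `z = 1 / ξ` which is not Hodge generic. -/
theorem result {m : ℕ} (hm : 2 ≤ m) (β : Fin m → ℚ) (hβ : ∀ j, 0 < β j ∧ β j < 1) :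
    (∃ G0 : ℕ, ∀ G : ℕ, G0 ≤ G → ∀ g A₀ : ℕ, ∃ E : ℕ, ∀ (H : ℕ) (ξ : ℂ), ((H : ℝ) + 2) ^ E ≤ ‖ξ‖ → Height g A₀ ξ →
      (∀ u : ℕ, u ≤ H → 1 < ‖ξ - ((G * u : ℕ) : ℂ)‖) ∧
      ∀ (C : Matrix (Fin (2 * m)) (Fin (2 * m)) ℂ) (A : Matrix (Fin (2 * m)) (Fin (2 * m)) ℚ), RationalStructure C A →
      ∃ S : Finset ℕ, S.card ≤ m + 1 ∧ ∀ u : ℕ, 1 ≤ u → u ≤ H → u ∉ S → HodgeGeneric β (ξ - ((G * u : ℕ) : ℂ)) C A) ∧
    (∃ G0 : ℕ, ∀ G : ℕ, G0 ≤ G → ∀ (g A₀ : ℕ) (C : Matrix (Fin (2 * m)) (Fin (2 * m)) ℂ)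
      (A : Matrix (Fin (2 * m)) (Fin (2 * m)) ℚ), RationalStructure C A → ∃ E : ℕ, ∀ (H : ℕ) (ξ : ℂ),
      ((H : ℝ) + 2) ^ E ≤ ‖ξ‖ → Height g A₀ ξ → (∀ u : ℕ, u ≤ H → 1 < ‖ξ - ((G * u : ℕ) : ℂ)‖) ∧
      ∃ S : Finset ℕ, (S.card : Cardinal) ≤ Algebra.trdeg ℚ (IntermediateField.adjoin ℚ
        (Set.range fun z : Fin (2 * m) × Fin (2 * m) => C z.1 z.2)) ∧
      ∀ u : ℕ, 1 ≤ u → u ≤ H → u ∉ S → HodgeGeneric β (ξ - ((G * u : ℕ) : ℂ)) C A) ∧
    ∀ g : ℕ, 1 ≤ g → ∃ c K : ℝ, 0 < c ∧ ∀ (C : Matrix (Fin (2 * m)) (Fin (2 * m)) ℂ)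
      (A : Matrix (Fin (2 * m)) (Fin (2 * m)) ℚ), RationalStructure C A → ∀ T : ℕ, 1 ≤ T →
      ({ξ : ℂ | House g T ξ ∧ 1 < ‖ξ‖ ∧ ¬ HodgeGeneric β ξ C A}.ncard : ℝ) ≤
        K * (T : ℝ) ^ (-c) * ({ξ : ℂ | House g T ξ}.ncard : ℝ) := by
  have hβ' : ∀ j, ∀ a : ℤ, β j ≠ a := by
    intro j a h
    have h1 := hβ j
    rw [h] at h1
    have h2 : (0 : ℤ) < a := by exact_mod_cast h1.1
    have h3 : a < (1 : ℤ) := by exact_mod_cast h1.2
    omega
  have hpi : (2 * (Real.pi : ℂ) * Complex.I) ≠ 0 := Complex.two_pi_I_ne_zero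
  have key : ∀ (ξ : ℂ) (C : Matrix (Fin (2 * m)) (Fin (2 * m)) ℂ) (A : Matrix (Fin (2 * m)) (Fin (2 * m)) ℚ),
      (∀ l : ℂ, Pool.Agent.Y119.HA.Conc_x β ξ l C A) → HodgeGeneric β ξ C A := by
    intro ξ C A h l _ H hH 𝔪 hbr hΦ X hX
    exact h l (fun p => ⨆ r : {r : ℕ // p ≤ r ∧ r < 2 * m}, H r) H
      (fun p hp => hH.fil p hp) ⟨fun _ => rfl, hH.conj, hH.orth, hH.pos⟩ 𝔪 hbr hΦ X hX
  obtain ⟨G0, hG01, h0⟩ := Pool.Agent.Y119.HA.win_unif_x Pool.Agent.Y730.MT.nf Pool.Agent.Y730.MT.td hm hβ'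
  have unif : ∀ G : ℕ, G0 ≤ G → ∀ g A₀ : ℕ, ∃ E : ℕ, ∀ (H : ℕ) (ξ : ℂ), ((H : ℝ) + 2) ^ E ≤ ‖ξ‖ → Height g A₀ ξ →
      (∀ u : ℕ, u ≤ H → 1 < ‖ξ - ((G * u : ℕ) : ℂ)‖) ∧
      ∀ (C : Matrix (Fin (2 * m)) (Fin (2 * m)) ℂ) (A : Matrix (Fin (2 * m)) (Fin (2 * m)) ℚ), RationalStructure C A →
      ∃ S : Finset ℕ, S.card ≤ m + 1 ∧ ∀ u : ℕ, 1 ≤ u → u ≤ H → u ∉ S →
        HodgeGeneric β (ξ - ((G * u : ℕ) : ℂ)) C A := by
    intro G hG g A₀
    obtain ⟨E, hE⟩ := h0 G hG g A₀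
    refine ⟨E, fun H ξ hξ hht => ?_⟩
    obtain ⟨h1, h2⟩ := hE H ξ hξ
    refine ⟨fun u hu => by linarith [h1 u hu], fun C A hC => ?_⟩
    obtain ⟨hdet, ⟨M, hM⟩, κ, hκ, hA⟩ := hC
    obtain ⟨S, hS, hS2⟩ := h2 hht C M _ hdet hpi hM
    exact ⟨S, hS, fun u hu1 hu2 huS => key _ _ _ fun l => hS2 u hu1 hu2 huS l A κ hκ hA⟩
  refine ⟨⟨G0, unif⟩, ?_, ?_⟩
  · obtain ⟨G1, -, h1⟩ := Pool.Agent.Y119.HA.win_fix_x hm hβ'
    refine ⟨G1, fun G hG g A₀ C A hC => ?_⟩
    obtain ⟨E, hE⟩ := h1 G hG g A₀ C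
    refine ⟨E, fun H ξ hξ hht => ?_⟩
    obtain ⟨h2, h3⟩ := hE H ξ hξ
    obtain ⟨S, hS, hS2⟩ := h3 hht
    obtain ⟨hdet, ⟨M, hM⟩, κ, hκ, hA⟩ := hC
    exact ⟨fun u hu => by linarith [h2 u hu], S, hS, fun u hu1 hu2 huS =>
      key _ _ _ fun l => hS2 u hu1 hu2 huS l M A _ κ hdet hpi hM hκ hA⟩
  · intro g hg
    obtain ⟨E, hE⟩ := unif G0 le_rfl g (4 * g + 4)
    obtain ⟨c, hc, K, hK0, hK⟩ := Pool.Agent.Y119.HA.bad_prop g G0 E (m + 1) hg hG01
    refine ⟨c, K, hc, fun C A hC T hT => ?_⟩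
    have h2 := hK (fun ξ => ¬ HodgeGeneric β ξ C A) (by
      intro H ξ hξ hht S hS
      obtain ⟨-, h3⟩ := hE H ξ hξ hht
      obtain ⟨S', hS', hS2⟩ := h3 C A hC
      refine le_trans (Finset.card_le_card fun u hu => ?_) hS'
      obtain ⟨hu1, hu2, hu3⟩ := hS u hu
      by_contra hu4
      exact hu3 (hS2 u hu1 hu2 hu4)) T hT
    refine le_trans ?_ h2
    have h3 : {ξ : ℂ | House g T ξ ∧ 1 < ‖ξ‖ ∧ ¬ HodgeGeneric β ξ C A} ⊆
        {ξ : ℂ | Pool.Agent.Y916.Sl.SInt g T ξ ∧ ¬ HodgeGeneric β ξ C A} := fun ξ hξ => ⟨hξ.1, hξ.2.2⟩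
    exact_mod_cast Set.ncard_le_ncard h3 ((Pool.Agent.Y916.Sl.sint_fin g T).subset fun ξ hξ => hξ.1)

end Pool.Agent.Results.MP_eeb1a4_ag.HodgeAlgebraicWindows
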