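import Pool.Agent.Y92.GS.Global

/-!
# The split locus of a variation of mixed Hodge structure with a gap of three in the weights

Let `X` be a compact connected Riemann surface, `D ⊂ X` the set of punctures and `V` an
admissible variation of mixed Hodge structure over the curve `X ∖ D`, extension of `ℚ(0)` by a
(mixed) variation `H` all of whose weights are at most `-3` (for instance the variation attached
to a family of higher Chow cycles in `CH^p(-, m)` with `m ≥ 2`).

The theorem says that for every subfield `K` of `ℝ` the set of the points `x` where the extension
`0 → H_x → V_x → ℚ(0) → 0` splits over `K` is finite or equal to `X ∖ D`.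
-/

namespace Pool.Agent.Results.MP_eeb1a4_ag.WeightGapThree

open Pool.Agent.Y92.Gap

/-- **Finiteness of the split locus for extensions of `ℚ(0)` by `H` of weights at most `-3`.** -/
theorem result (X : Type) [TopologicalSpace X] [ChartedSpace ℂ X]
    [IsManifold (modelWithCornersSelf ℂ ℂ) 1 X] [CompactSpace X] [ConnectedSpace X] [T2Space X]
    (D : Set X) (n : ℕ) (lev : Fin n → ℤ) (V : Variation n lev X D) (K : Subfield ℝ) :
    (V.splitLocus K).Finite ∨ V.splitLocus K = Dᶜ :=
  Pool.Agent.Y92.GS.splitLocus_finite_or_all V K

end Pool.Agent.Results.MP_eeb1a4_ag.WeightGapThree
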